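import Pool.Agent.V7Lead.GH.Defs

set_option autoImplicit false

/-! Project GH, job COFC (helper34). -/

namespace Pool.Agent.V7H34.GH.COFC

open Filter Topology MeasureTheory Complex
open Pool.Agent.Q97.UM
open Pool.Agent.V7Lead.GH

noncomputable section

theorem diff_dq (M : ℕ) (c : ℕ → ℂ) : Differentiable ℂ (dq M c) := by
  unfold dq
  refine Differentiable.fun_sum fun n hn => ?_
  have hn1 : (n : ℂ) ≠ 0 := by
    have := (Finset.mem_Icc.1 hn).1
    exact_mod_cast (by omega : n ≠ 0)
  exact (differentiable_const _).mul (differentiable_neg.const_cpow (Or.inl hn1))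

theorem diff_TEx (R : ℕ) : Differentiable ℂ (TEx R) := by
  unfold TEx
  exact Differentiable.fun_sum fun n _ => (differentiable_id.pow n).div_const _

theorem diff_Efc (D κ : ℝ) (a a2 : ℕ → ℂ) (j₀ : ℕ) : Differentiable ℂ (Efc D κ a a2 j₀) := by
  unfold Efc
  exact Differentiable.fun_finset_prod fun l _ => (diff_TEx _).comp (diff_dq _ _)

theorem diff_pwc (D κ : ℝ) (a a2 : ℕ → ℂ) (q : ℕ) : Differentiable ℂ (pwc D κ a a2 q) := by
  cases q with
  | zero => exact differentiable_const _
  | succ j =>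
    unfold pwc zfc
    exact (((diff_dq _ _).const_mul _).div_const _).pow _

theorem eq_of_line {f g : ℂ → ℂ} (hf : Differentiable ℂ f) (hg : Differentiable ℂ g)
    (h : ∀ t : ℝ, f (1 / 2 + t * I) = g (1 / 2 + t * I)) : f = g := by
  refine AnalyticOnNhd.eq_of_frequently_eq (𝕜 := ℂ) (z₀ := 1 / 2)
    (fun z _ => hf.analyticAt z) (fun z _ => hg.analyticAt z) ?_
  have h1 : Tendsto (fun t : ℝ => (1 / 2 + t * I : ℂ)) (𝓝[≠] 0) (𝓝[≠] (1 / 2 : ℂ)) := by
    refine tendsto_nhdsWithin_of_tendsto_nhds_of_eventually_within _ ?_ ?_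
    · have h2 : Continuous fun t : ℝ => (1 / 2 + t * I : ℂ) := by fun_prop
      have h3 := h2.tendsto 0
      simp only [ofReal_zero, zero_mul, add_zero] at h3
      exact h3.mono_left nhdsWithin_le_nhds
    · filter_upwards [self_mem_nhdsWithin] with t ht h2
      rw [Set.mem_singleton_iff] at h2
      have h3 : (t : ℂ) * I = 0 := by
        have := congrArg (fun z : ℂ => z - 1 / 2) h2
        simpa using this
      rw [mul_eq_zero] at h3
      rcases h3 with h3 | h3
      · exact ht (by exact_mod_cast h3)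
      · exact I_ne_zero h3
  exact h1.frequently (Eventually.frequently (Eventually.of_forall h))

theorem t_COFC : S_COFC := by
  intro h κ D hκ hD a a2 a' a2' j₀ q
  obtain ⟨-, -, h3⟩ := h κ D hκ hD a a2 a' a2' j₀ q
  obtain ⟨M, c, h4, h5, h6, h7⟩ := h3 1 (fun n => if n = 1 then 1 else 0) le_rfl
    (by rw [Nat.cast_one, Real.log_one]; linarith) (by
      intro n hn
      have : n = 1 := by
        by_contra hc
        exact hn (if_neg hc)
      omega)
  have e1 : ∀ t, dp 1 (fun n => if n = 1 then 1 else 0) t = 1 := by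
    intro t
    unfold dp
    rw [Finset.Icc_self, Finset.sum_singleton]
    dsimp only
    rw [if_pos rfl, Nat.cast_one, one_cpow, mul_one]
  have h8 : ∀ t : ℝ, dp M c t = Ef D κ a a2 j₀ t * pw D κ a' a2' q t := by
    intro t
    rw [h7, e1, mul_one]
  refine ⟨M, c, h4, ?_, h6, h8, ?_⟩
  · rw [Nat.cast_one, Real.log_one, add_zero] at h5
    exact h5
  · intro s
    have e2 : dq M c = fun s => Efc D κ a a2 j₀ s * pwc D κ a' a2' q s := by
      refine eq_of_line (diff_dq M c) ((diff_Efc D κ a a2 j₀).mul (diff_pwc D κ a' a2' q)) ?_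
      intro t
      have e3 : dq M c (1 / 2 + t * I) = dp M c t := rfl
      have e4 : Efc D κ a a2 j₀ (1 / 2 + t * I) = Ef D κ a a2 j₀ t := rfl
      have e5 : pwc D κ a' a2' q (1 / 2 + t * I) = pw D κ a' a2' q t := by
        cases q <;> rfl
      rw [e3, e4, e5, h8]
    rw [e2]

end

end Pool.Agent.V7H34.GH.COFC
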