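import Pool.Agent.V7Lead.GH.Defs

set_option autoImplicit false

/-! Project GH, job PTC (helper34). -/

namespace Pool.Agent.V7H34.GH.PTC

open Filter Topology MeasureTheory Complex
open Pool.Agent.Q97.UM
open Pool.Agent.V7Lead.GH

noncomputable section

theorem dq_smul (M : ℕ) (x : ℂ) (c : ℕ → ℂ) (s : ℂ) : dq M (fun n => x * c n) s = x * dq M c s := by
  unfold dq
  rw [Finset.mul_sum]
  exact Finset.sum_congr rfl fun n _ => by ring

theorem qb_smul (D : ℝ) (x : ℂ) (j : ℕ) :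
    qb D (fun _ => x) (fun _ => x) j = fun n => x * qb D (fun _ => 1) (fun _ => 1) j n := by
  funext n
  unfold qb
  split_ifs <;> ring

theorem zfc_smul (D : ℝ) (x : ℂ) (j : ℕ) (s : ℂ) :
    zfc D (fun _ => x) (fun _ => x) j s = x * zfc D (fun _ => 1) (fun _ => 1) j s := by
  unfold zfc
  rw [qb_smul, dq_smul]

theorem pt2_one (h : S_PT2) {lam κ : ℝ} (hl0 : 0 < lam) (hl1 : lam < 1) (hκ : 4 ≤ κ) :
    ∃ C : ℝ, 1 ≤ C ∧ ∀ (D : ℝ) (s : ℂ) (Z : ℝ), 0 ≤ Z → Z ^ (2 * lam) ≤ C * ∑ q ∈ Finset.range (JB D + 1),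
      (‖Efc D κ (fun _ => (lam : ℂ)) (fun _ => (lam : ℂ)) q s * pwc D κ (fun _ => 1) (fun _ => 1) q s‖ ^ 2 +
        Z ^ 2 * ‖Efc D κ (fun _ => (lam : ℂ) - 1) (fun _ => (lam : ℂ) - 1) q s * pwc D κ (fun _ => 1) (fun _ => 1) q s‖ ^ 2) := by
  obtain ⟨C, hC, h⟩ := h 1 κ hκ
  refine ⟨C, hC, fun D s Z hZ => ?_⟩
  have h1 := h (JB D) (fun _ => lam) (fun _ l => zfc D (fun _ => 1) (fun _ => 1) l s) (fun _ => Z)
    (fun _ => hl0.le) (by simpa using hl1.le) (fun _ => hZ)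
  simp only [Finset.univ_unique, Fin.default_eq_zero, Fin.isValue, Finset.prod_singleton, Finset.sum_singleton] at h1
  refine h1.trans (mul_le_mul_of_nonneg_left (le_of_eq ?_) (by linarith))
  have e1 : ∀ q : ℕ, Efc D κ (fun _ => (lam : ℂ)) (fun _ => (lam : ℂ)) q s =
      ∏ l ∈ Finset.Ico q (JB D), TEx (R9 κ l) ((lam : ℂ) * zfc D (fun _ => 1) (fun _ => 1) l s) := by
    intro q
    unfold Efc
    exact Finset.prod_congr rfl fun l _ => by rw [zfc_smul]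
  have e2 : ∀ q : ℕ, Efc D κ (fun _ => (lam : ℂ) - 1) (fun _ => (lam : ℂ) - 1) q s =
      ∏ l ∈ Finset.Ico q (JB D), TEx (R9 κ l) ((lam : ℂ) * zfc D (fun _ => 1) (fun _ => 1) l s -
        zfc D (fun _ => 1) (fun _ => 1) l s) := by
    intro q
    unfold Efc
    exact Finset.prod_congr rfl fun l _ => by rw [zfc_smul]; congr 1; ring
  have e3 : ∀ j : ℕ, ‖pwc D κ (fun _ => 1) (fun _ => 1) (j + 1) s‖ ^ 2 =
      (20 * ‖zfc D (fun _ => 1) (fun _ => 1) j s‖ / R9 κ j) ^ (2 * s7 j) := by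
    intro j
    unfold pwc
    rw [norm_pow, norm_div, norm_mul, Complex.norm_natCast, ← pow_mul, mul_comm (s7 j) 2]
    norm_num
  rw [Finset.sum_range_succ' (fun q => (‖Efc D κ (fun _ => (lam : ℂ)) (fun _ => (lam : ℂ)) q s * pwc D κ (fun _ => 1) (fun _ => 1) q s‖ ^ 2 +
        Z ^ 2 * ‖Efc D κ (fun _ => (lam : ℂ) - 1) (fun _ => (lam : ℂ) - 1) q s * pwc D κ (fun _ => 1) (fun _ => 1) q s‖ ^ 2))]
  have e4 : pwc D κ (fun _ => 1) (fun _ => 1) 0 s = 1 := rfl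
  rw [e4, e1 0, e2 0, mul_one, mul_one, ← Finset.range_eq_Ico, add_comm]
  congr 1
  refine Finset.sum_congr rfl fun j _ => ?_
  rw [norm_mul, norm_mul, mul_pow, mul_pow, e3, e1, e2]
  ring

theorem t_PTC : S_PTC := by
  intro h lam κ m' hl0 hl1 hκ hm
  obtain ⟨C, hC, h⟩ := pt2_one h hl0 hl1 hκ
  refine ⟨C, hC, fun D s X n E hX hn hE => ?_⟩
  have hl : 0 < 1 - lam := by linarith
  have hn0 : 0 < n := by linarith
  have hE0 : 0 < E := by linarith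
  have hN0 : 0 < n * E := mul_pos hn0 hE0
  set P : ℝ := (n * E) ^ (lam / (1 - lam)) with hP
  have hP0 : 0 < P := Real.rpow_pos_of_pos hN0 _
  have hPm : P ≤ n ^ m' * E ^ (lam / (1 - lam)) := by
    rw [hP, Real.mul_rpow hn0.le hE0.le, ← Real.rpow_natCast]
    exact mul_le_mul_of_nonneg_right (Real.rpow_le_rpow_of_exponent_le hn hm) (Real.rpow_nonneg hE0.le _)
  set Z : ℝ := (n * E) ^ (-(1 / (2 * (1 - lam)))) * X with hZ
  have hZ0 : 0 ≤ Z := mul_nonneg (Real.rpow_nonneg hN0.le _) hX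
  have hZ2 : P * Z ^ (2 * lam) = X ^ (2 * lam) := by
    rw [hZ, Real.mul_rpow (Real.rpow_nonneg hN0.le _) hX, ← Real.rpow_mul hN0.le, hP, ← mul_assoc, ← Real.rpow_add hN0]
    have : lam / (1 - lam) + -(1 / (2 * (1 - lam))) * (2 * lam) = 0 := by field_simp; ring
    rw [this, Real.rpow_zero, one_mul]
  have hZ3 : P * Z ^ 2 = n⁻¹ * E⁻¹ * X ^ 2 := by
    rw [hZ, mul_pow, ← Real.rpow_natCast ((n * E) ^ (-(1 / (2 * (1 - lam))))) 2, ← Real.rpow_mul hN0.le, hP, ← mul_assoc,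
      ← Real.rpow_add hN0]
    have : lam / (1 - lam) + -(1 / (2 * (1 - lam))) * ((2 : ℕ) : ℝ) = -1 := by push_cast; field_simp; ring
    rw [this, Real.rpow_neg_one, mul_inv]
  have h1 := mul_le_mul_of_nonneg_left (h D s Z hZ0) hP0.le
  rw [hZ2] at h1
  refine h1.trans ?_
  rw [← mul_assoc, mul_comm P C, mul_assoc]
  refine mul_le_mul_of_nonneg_left ?_ (by linarith)
  rw [Finset.mul_sum]
  refine Finset.sum_le_sum fun q _ => ?_
  rw [mul_add, ← mul_assoc P (Z ^ 2), hZ3]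
  have h2 : P * ‖Efc D κ (fun _ => (lam : ℂ)) (fun _ => (lam : ℂ)) q s * pwc D κ (fun _ => 1) (fun _ => 1) q s‖ ^ 2 ≤
      n ^ m' * E ^ (lam / (1 - lam)) * ‖Efc D κ (fun _ => (lam : ℂ)) (fun _ => (lam : ℂ)) q s * pwc D κ (fun _ => 1) (fun _ => 1) q s‖ ^ 2 :=
    mul_le_mul_of_nonneg_right hPm (by positivity)
  linarith

end

end Pool.Agent.V7H34.GH.PTC
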